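import Pool.Agent.Helper54.SR.Defs
import Pool.Agent.Helper14.SR.Parts
import Pool.Agent.Helper32.SR.MkEq
import Pool.Agent.Helper37.SR.Ev
import Pool.Agent.Helper43.SR.D5a
import Pool.Agent.Helper67.SR.ModByMonic
import Pool.Agent.Helper73.SR.RegularPoly
import Pool.Agent.Helper76.SR.D6a

/-!
# SR-D6 exists_H: the functions `H₁`, `H₂`, `H₁₂`

`S = ∑ s_j Y^j`, `Σ = ∑ σ_j Y^j` from `lift_section`; `H₁ = (u - t) S^ℓ mod f`, `H₂ = (u - t) Σ^ℓ mod f`,
`H₁₂ = (u - t) Σ S^(ℓ-1) mod f`.
-/

set_option autoImplicit false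
open Polynomial Pool.Agent.Helper54.PW

namespace Pool.Agent.Helper54.SR

namespace exH

variable {k : Type} [Field k]

/-- The polynomial with the coefficients `s`. -/
noncomputable def SS {n : ℕ} (s : Fin n → EE k) : Polynomial (EE k) :=
  ∑ j : Fin n, C (s j) * X ^ (j : ℕ)

theorem SS_eval {n : ℕ} (s : Fin n → EE k) (x : EE k) :
    (SS s).eval x = ∑ j : Fin n, s j * x ^ (j : ℕ) := by
  simp [SS, eval_finsetSum]

theorem SS_coeff {n : ℕ} (s : Fin n → EE k) (j : ℕ) :
    (SS s).coeff j = if h : j < n then s ⟨j, h⟩ else 0 := by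
  unfold SS
  rw [finsetSum_coeff]
  simp only [coeff_C_mul, coeff_X_pow]
  split_ifs with h
  · rw [Finset.sum_eq_single ⟨j, h⟩]
    · simp
    · intro b _ hb
      have : j ≠ (b : ℕ) := fun h' => hb (Fin.ext h'.symm)
      simp [this]
    · intro h'
      exact absurd (Finset.mem_univ _) h'
  · refine Finset.sum_eq_zero fun b _ => ?_
    have : j ≠ (b : ℕ) := by
      intro h'
      exact h (h' ▸ b.2)
    simp [this]

theorem BD_zero (m : ℤ) : BD m (0 : EE k) := by
  intro r e _
  simp

/-- The weight of the polynomial of a section. -/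
theorem SS_WF {n d m : ℕ} (s : Fin n → EE k) (a : Fin n → Polynomial k) (hm : d * n ≤ m)
    (ha : ∀ j : Fin n, (j : ℕ) ≠ 0 → a j = 0) (ha0 : ∀ j, (a j).natDegree ≤ m)
    (h0 : ∀ j, PowerSeries.constantCoeff (s j) =
        algebraMap (PowerSeries k) (LaurentSeries k) (a j : PowerSeries k))
    (h1 : ∀ j r, r ≠ 0 → ∀ e : ℤ, 0 ≤ e → (PowerSeries.coeff r (s j)).coeff e = 0) :
    WF d m (SS s) := by
  intro j
  rw [SS_coeff]
  split_ifs with h
  · intro r e he
    by_cases hr : r = 0
    · subst hr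
      have e1 : PowerSeries.coeff 0 (s ⟨j, h⟩) =
        algebraMap (PowerSeries k) (LaurentSeries k) (a ⟨j, h⟩ : PowerSeries k) := by
        rw [← h0, PowerSeries.coeff_zero_eq_constantCoeff_apply]
      rw [e1]
      by_cases hj : j = 0
      · subst hj
        have he' : (m : ℤ) < e := by simpa using he
        obtain ⟨e, rfl⟩ := Int.eq_ofNat_of_zero_le (by omega : 0 ≤ e)
        have e2 : ((algebraMap (PowerSeries k) (LaurentSeries k))
          (a ⟨0, h⟩ : PowerSeries k)).coeff (e : ℤ) = PowerSeries.coeff e (a ⟨0, h⟩ : PowerSeries k) :=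
          LaurentSeries.coeff_coe_powerSeries _ _
        rw [e2, Polynomial.coeff_coe]
        refine coeff_eq_zero_of_natDegree_lt (lt_of_le_of_lt (ha0 _) ?_)
        exact_mod_cast he'
      · rw [ha ⟨j, h⟩ hj]
        simp
    · have hjn : (d : ℤ) * j ≤ d * n := by
        have : d * j ≤ d * n := Nat.mul_le_mul_left d h.le
        exact_mod_cast this
      have hm' : (d : ℤ) * n ≤ m := by exact_mod_cast hm
      exact h1 _ r hr e (by omega)
  · exact BD_zero _

/-- `u - t` in `EE`. -/
noncomputable def ut (k : Type) [Field k] : EE k := iI k (uO k) - iI k (tO k)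

theorem iI_uO : iI k (uO k) = PowerSeries.C (algebraMap (PowerSeries k) (LaurentSeries k) PowerSeries.X) := by
  unfold iI uO
  rw [PowerSeries.map_C]

theorem iI_tO : iI k (tO k) = PowerSeries.X := by
  unfold iI tO
  rw [PowerSeries.map_X]

theorem ut_BD : BD 1 (ut k) := by
  intro r e he
  unfold ut
  rw [iI_uO, iI_tO, map_sub, PowerSeries.coeff_C, PowerSeries.coeff_X]
  obtain ⟨e, rfl⟩ := Int.eq_ofNat_of_zero_le (by omega : 0 ≤ e)
  have he' : 1 < e := by
    have : ((1 : ℕ) : ℤ) < (e : ℤ) := by exact_mod_cast he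
    exact_mod_cast this
  have h1 : ((algebraMap (PowerSeries k) (LaurentSeries k)) PowerSeries.X).coeff (e : ℤ) = 0 := by
    have : ((algebraMap (PowerSeries k) (LaurentSeries k)) PowerSeries.X).coeff (e : ℤ) =
        PowerSeries.coeff e (PowerSeries.X : PowerSeries k) :=
      LaurentSeries.coeff_coe_powerSeries _ _
    rw [this, PowerSeries.coeff_X, if_neg (by omega)]
  have h2 : (1 : LaurentSeries k).coeff (e : ℤ) = 0 := by
    rw [HahnSeries.coeff_one, if_neg (by omega)]
  have h3 : ∀ (P : Prop) [Decidable P], (if P then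
      ((algebraMap (PowerSeries k) (LaurentSeries k)) PowerSeries.X) else 0).coeff (e : ℤ) = 0 := by
    intro P _
    split_ifs
    · exact h1
    · rfl
  have h4 : ∀ (P : Prop) [Decidable P], (if P then (1 : LaurentSeries k) else 0).coeff (e : ℤ) = 0 := by
    intro P _
    split_ifs
    · exact h2
    · rfl
  change (_ - _ : LaurentSeries k).coeff (e : ℤ) = 0
  rw [HahnSeries.coeff_sub, h3, h4, sub_zero]

theorem C_WF {d : ℕ} {m : ℤ} {z : EE k} (h : BD m z) : WF d m (C z) := by
  intro j
  rw [coeff_C]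
  split_ifs with hj
  · subst hj
    simpa using h
  · exact BD_zero _

theorem iI_injective : Function.Injective (iI k) :=
  PowerSeries.map_injective _ HahnSeries.ofPowerSeries_injective

theorem cE_injective : Function.Injective (cE (k := k)) := by
  intro a b h
  exact PowerSeries.C_injective (iI_injective h)

/-- The embedding of the power series in `u` as a ring homomorphism. -/
noncomputable def cH : PowerSeries k →+* EE k := (iI k).comp (PowerSeries.C)

theorem cH_apply (y : PowerSeries k) : cH y = cE y := rfl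

theorem jE_comp : (jE k).comp (Polynomial.mapRingHom (algebraMap k (PowerSeries k))) =
    cH.comp (Polynomial.coeToPowerSeries.ringHom (R := k)) := by
  apply Polynomial.ringHom_ext
  · intro a
    simp only [RingHom.comp_apply, coe_mapRingHom, Polynomial.map_C,
      Polynomial.coeToPowerSeries.ringHom_apply, Polynomial.coe_C]
    unfold jE jO cH
    simp only [RingHom.comp_apply, coe_eval₂RingHom, eval₂_C]
    rw [PowerSeries.algebraMap_apply, PowerSeries.map_C]
    rfl
  · simp only [RingHom.comp_apply, coe_mapRingHom, Polynomial.map_X,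
      Polynomial.coeToPowerSeries.ringHom_apply, Polynomial.coe_X]
    unfold jE jO cH
    simp only [RingHom.comp_apply, coe_eval₂RingHom, eval₂_X]
    rfl

theorem BD_poly (p : k[X]) (m : ℤ) (h : (p.natDegree : ℤ) ≤ m) : BD m (cE (p : PowerSeries k)) := by
  intro r e he
  unfold cE iI
  rw [PowerSeries.map_C, PowerSeries.coeff_C]
  split_ifs with hr
  · obtain ⟨e, rfl⟩ := Int.eq_ofNat_of_zero_le (by omega : 0 ≤ e)
    have e2 : ((algebraMap (PowerSeries k) (LaurentSeries k))
          (p : PowerSeries k)).coeff (e : ℤ) = PowerSeries.coeff e (p : PowerSeries k) :=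
          LaurentSeries.coeff_coe_powerSeries _ _
    rw [e2, Polynomial.coeff_coe]
    exact coeff_eq_zero_of_natDegree_lt (by exact_mod_cast lt_of_le_of_lt h he)
  · rfl

/-- The polynomial `f` over `EE`. -/
noncomputable def fE (f : k[X][X]) : Polynomial (EE k) :=
  (fS (algebraMap k (PowerSeries k)) f).map (jE k)

theorem fE_eq (f : k[X][X]) :
    fE f = (f.map (Polynomial.coeToPowerSeries.ringHom (R := k))).map cH := by
  unfold fE fS
  rw [Polynomial.map_map, Polynomial.map_map, jE_comp]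

theorem fE_coeff (f : k[X][X]) (j : ℕ) : (fE f).coeff j = cE (f.coeff j : PowerSeries k) := by
  rw [fE_eq, coeff_map, coeff_map]
  rfl

theorem fE_monic {f : k[X][X]} (hf : f.Monic) : (fE f).Monic := by
  rw [fE_eq]
  exact (hf.map _).map _

theorem fE_natDegree {f : k[X][X]} (hf : f.Monic) : (fE f).natDegree = f.natDegree := by
  rw [fE_eq, (hf.map _).natDegree_map, hf.natDegree_map]

theorem fE_WF {f : k[X][X]} {n d : ℕ} (hn : f.natDegree = n)
    (hd : ∀ j ≤ n, (f.coeff j).natDegree + d * j ≤ d * n) : WF d (d * n) (fE f) := by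
  intro j
  rw [fE_coeff]
  by_cases hj : j ≤ n
  · refine BD_poly _ _ ?_
    have := hd j hj
    have h2 : ((f.coeff j).natDegree : ℤ) + d * j ≤ d * n := by exact_mod_cast this
    linarith
  · rw [coeff_eq_zero_of_natDegree_lt (by omega : f.natDegree < j)]
    have : cE ((0 : k[X]) : PowerSeries k) = (0 : EE k) := by
      rw [Polynomial.coe_zero, ← cH_apply, map_zero]
    rw [this]
    exact BD_zero _

theorem prod_root {R : Type} [CommRing R] {n : ℕ} (y : Fin n → R) (i : Fin n) :
    (∏ j, (X - C (y j))).eval (y i) = 0 := by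
  rw [eval_prod]
  refine Finset.prod_eq_zero (Finset.mem_univ i) ?_
  rw [eval_sub, eval_X, eval_C, sub_self]

theorem fE_root {f : k[X][X]} {n : ℕ} {y : Fin n → PowerSeries k}
    (hfy : f.map (Polynomial.coeToPowerSeries.ringHom (R := k)) = ∏ i, (X - C (y i))) (i : Fin n) :
    (fE f).eval (cE (y i)) = 0 := by
  have h0 : (f.map (Polynomial.coeToPowerSeries.ringHom (R := k))).eval (y i) = 0 := by
    rw [hfy]
    exact prod_root y i
  rw [fE_eq, ← cH_apply, eval_map, eval₂_at_apply, h0, map_zero]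

/-- From a polynomial of bounded weight with regular values to a polynomial over `k⟦t⟧[X]`. -/
theorem reg {f : k[X][X]} (hf : f.Monic) {n d : ℕ} (hn : f.natDegree = n)
    (hd : ∀ j ≤ n, (f.coeff j).natDegree + d * j ≤ d * n) {y : Fin n → PowerSeries k}
    (hy : Function.Injective fun i => PowerSeries.constantCoeff (y i))
    (hfy : f.map (Polynomial.coeToPowerSeries.ringHom (R := k)) = ∏ i, (X - C (y i)))
    {M : ℕ} {G : Polynomial (EE k)} (hG : WF d M G)
    (hr : ∀ i, G.eval (cE (y i)) ∈ (iI k).range) :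
    ∃ H : (PowerSeries k)[X][X], H.degree < n ∧
      (∀ j, H.coeff j ≠ 0 → (H.coeff j).natDegree + d * j ≤ M) ∧
      ∀ i, (H.map (jE k)).eval (cE (y i)) = G.eval (cE (y i)) := by
  have hmod : ∀ i, (G %ₘ fE f).eval (cE (y i)) = G.eval (cE (y i)) := fun i =>
    eval₂_modByMonic_eq_self_of_root (fE_root hfy i)
  have hmon := fE_monic hf
  have hdeg : (G %ₘ fE f).degree < n := by
    have h1 := degree_modByMonic_lt G hmon
    rwa [degree_eq_natDegree hmon.ne_zero, fE_natDegree hf, hn] at h1
  have hW : WF d M (G %ₘ fE f) :=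
    WF.modByMonic hmon ((fE_natDegree hf).trans hn) (fE_WF hn hd) hG
  obtain ⟨H, h1, h2, h3⟩ := regular_poly y hy (G %ₘ fE f) hdeg hW
    (fun i => by rw [hmod]; exact hr i)
  exact ⟨H, h1, h3, fun i => by rw [h2, hmod]⟩

/-- The section. -/
theorem sect {n d m : ℕ} (y : Fin n → PowerSeries k)
    (hy : Function.Injective fun i => PowerSeries.constantCoeff (y i)) (i₀ : Fin n) (U : EE k)
    (hU : PowerSeries.constantCoeff U = 1) (hm : d * n ≤ m) (a : Polynomial k)
    (ha : a.natDegree ≤ m) :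
    ∃ S : Polynomial (EE k), WF d m S ∧
      (∀ i, PowerSeries.constantCoeff (S.eval (cE (y i))) =
        algebraMap (PowerSeries k) (LaurentSeries k) (a : PowerSeries k)) ∧
      (∀ i, i ≠ i₀ → S.eval (cE (y i)) ∈ (iI k).range) ∧
      U * S.eval (cE (y i₀)) ∈ (iI k).range := by
  obtain ⟨s, h1, h2, h3, h4⟩ := lift_section y hy i₀ U hU
    (fun j => if (j : ℕ) = 0 then a else 0)
  refine ⟨SS s, SS_WF s _ hm ?_ ?_ h1 h2, ?_, ?_, ?_⟩
  · intro j hj
    simp [hj]
  · intro j
    split_ifs
    · exact ha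
    · simp
  · intro i
    have hn : 0 < n := lt_of_le_of_lt (Nat.zero_le _) i₀.2
    rw [SS_eval, map_sum, Finset.sum_eq_single ⟨0, hn⟩]
    · rw [map_mul, map_pow, h1]
      simp
    · intro b _ hb
      have : (b : ℕ) ≠ 0 := fun h' => hb (Fin.ext h')
      rw [map_mul, h1]
      simp [this]
    · intro h'
      exact absurd (Finset.mem_univ _) h'
  · intro i hi
    rw [SS_eval]
    exact h3 i hi
  · rw [SS_eval]
    exact h4

/-! ### Reduction modulo `t` -/

/-- The embedding of the polynomials in the Laurent series. -/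
noncomputable def toL : k[X] →+* LaurentSeries k :=
  (algebraMap (PowerSeries k) (LaurentSeries k)).comp (Polynomial.coeToPowerSeries.ringHom (R := k))

theorem toL_injective : Function.Injective (toL (k := k)) := by
  intro a b h
  have := HahnSeries.ofPowerSeries_injective (Γ := ℤ) (R := k) h
  exact Polynomial.coe_injective k this

theorem const_map {R S : Type} [CommRing R] [CommRing S] (g : R →+* S) (z : PowerSeries R) :
    PowerSeries.constantCoeff (PowerSeries.map g z) = g (PowerSeries.constantCoeff z) := by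
  rw [← PowerSeries.coeff_zero_eq_constantCoeff_apply, PowerSeries.coeff_map,
    PowerSeries.coeff_zero_eq_constantCoeff_apply]

theorem const_jE : (PowerSeries.constantCoeff (R := LaurentSeries k)).comp (jE k) =
    toL.comp (Polynomial.mapRingHom (PowerSeries.constantCoeff (R := k))) := by
  apply Polynomial.ringHom_ext
  · intro a
    simp only [RingHom.comp_apply, coe_mapRingHom, Polynomial.map_C]
    unfold jE jO iI toL
    simp only [RingHom.comp_apply, coe_eval₂RingHom, eval₂_C,
      Polynomial.coeToPowerSeries.ringHom_apply, Polynomial.coe_C]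
    rw [const_map, const_map]
  · simp only [RingHom.comp_apply, coe_mapRingHom, Polynomial.map_X]
    unfold jE jO iI toL uO
    simp only [RingHom.comp_apply, coe_eval₂RingHom, eval₂_X,
      Polynomial.coeToPowerSeries.ringHom_apply, Polynomial.coe_X]
    rw [const_map, PowerSeries.constantCoeff_C]

theorem const_cE (y : PowerSeries k) : PowerSeries.constantCoeff (cE y) =
    algebraMap (PowerSeries k) (LaurentSeries k) y := by
  unfold cE iI
  rw [const_map, PowerSeries.constantCoeff_C]

theorem const_ut : PowerSeries.constantCoeff (ut k) =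
    algebraMap (PowerSeries k) (LaurentSeries k) PowerSeries.X := by
  unfold ut
  rw [iI_uO, iI_tO, map_sub, PowerSeries.constantCoeff_C, PowerSeries.constantCoeff_X, sub_zero]

/-- Reduction modulo `t` of a polynomial with given values. -/
theorem red {n : ℕ} {y : Fin n → PowerSeries k}
    (hy : Function.Injective fun i => PowerSeries.constantCoeff (y i))
    {H : (PowerSeries k)[X][X]} (hH : H.degree < n) (hn : 0 < n) (b : k[X])
    (h : ∀ i, PowerSeries.constantCoeff ((H.map (jE k)).eval (cE (y i))) = toL b) :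
    H.map (Polynomial.mapRingHom (PowerSeries.constantCoeff (R := k))) = C b := by
  have hinj : Function.Injective (Polynomial.map (toL (k := k))) :=
    Polynomial.map_injective _ toL_injective
  apply hinj
  have hyi : Function.Injective fun i => algebraMap (PowerSeries k) (LaurentSeries k) (y i) := by
    intro i j hij
    have := HahnSeries.ofPowerSeries_injective (Γ := ℤ) (R := k) hij
    exact hy (congrArg PowerSeries.constantCoeff this)
  refine eq_of_degrees_lt_of_eval_index_eq (v := fun i => algebraMap (PowerSeries k) (LaurentSeries k) (y i))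
    Finset.univ hyi.injOn ?_ ?_ ?_
  · rw [Finset.card_univ, Fintype.card_fin]
    exact lt_of_le_of_lt (degree_map_le.trans degree_map_le) hH
  · rw [Finset.card_univ, Fintype.card_fin, Polynomial.map_C]
    exact lt_of_le_of_lt degree_C_le (by exact_mod_cast hn)
  · intro i _
    have h1 := h i
    rw [← const_cE, Polynomial.map_map, ← const_jE, ← Polynomial.map_map, Polynomial.map_C, eval_C,
      ← h1, Polynomial.eval_map, eval₂_at_apply]

end exH

open exH in
/-- SR-D6 -/
theorem exists_H {k : Type} [Field k] {ℓ : ℕ} (hℓ0 : 0 < ℓ) (hℓ : (ℓ : k) ≠ 0) {n : ℕ}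
    (f : k[X][X]) (hf : f.Monic)
    (hn : f.natDegree = n) (y : Fin n → PowerSeries k)
    (hy : Function.Injective fun i => PowerSeries.constantCoeff (y i))
    (hfy : f.map (Polynomial.coeToPowerSeries.ringHom (R := k)) = ∏ i, (X - C (y i)))
    (i₀ : Fin n) (d : ℕ) (hd : ∀ j ≤ n, (f.coeff j).natDegree + d * j ≤ d * n) :
    ∃ (M : ℕ) (H₁ H₂ H₁₂ : (PowerSeries k)[X][X]), 0 < M ∧
      H₁.degree < n ∧ H₂.degree < n ∧
      AdjoinRoot.mk (fS (algebraMap k (PowerSeries k)) f) H₁₂ ^ ℓ =
        AdjoinRoot.mk (fS (algebraMap k (PowerSeries k)) f) H₂ *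
          AdjoinRoot.mk (fS (algebraMap k (PowerSeries k)) f) H₁ ^ (ℓ - 1) ∧
      H₁.map (Polynomial.mapRingHom (PowerSeries.constantCoeff (R := k))) = C X ∧
      H₂.map (Polynomial.mapRingHom (PowerSeries.constantCoeff (R := k))) = C (X ^ M) ∧
      (∀ j, H₂.coeff j ≠ 0 → (H₂.coeff j).natDegree + d * j ≤ M) ∧
      (evalEval 0 (PowerSeries.C (PowerSeries.constantCoeff (y i₀))) H₁ = 0 ∧
        evalEval 0 (PowerSeries.C (PowerSeries.constantCoeff (y i₀))) H₂ = 0) ∧
      ∀ i, i ≠ i₀ → evalEval PowerSeries.X (y i) H₁ = 0 ∧ evalEval PowerSeries.X (y i) H₂ = 0 := by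
  have hn0 : 0 < n := lt_of_le_of_lt (Nat.zero_le _) i₀.2
  obtain ⟨U, hU1, hU2⟩ := exists_U (k := k) hℓ
  set m : ℕ := d * n with hm
  obtain ⟨S, S1, S2, S3, S4⟩ := sect y hy i₀ U hU1 (le_refl m) (1 : k[X]) (by simp)
  obtain ⟨T, T1, T2, T3, T4⟩ := sect y hy i₀ U hU1 (le_refl m) (X ^ m : k[X]) (by simp)
  set M : ℕ := 1 + ℓ * m with hM
  -- weights
  have hW : ∀ A B : Polynomial (EE k), WF d m A → WF d m B →
      WF d M (C (ut k) * (A * B ^ (ℓ - 1))) := by
    intro A B hA hB
    have h1 := WF.mul (C_WF (d := d) ut_BD) (WF.mul hA (WF.pow hB (ℓ - 1)))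
    have h2 : (1 : ℤ) + ((m : ℤ) + ((ℓ - 1 : ℕ) : ℤ) * m) = (M : ℤ) := by
      rw [hM]
      obtain ⟨l, rfl⟩ : ∃ l, ℓ = l + 1 := ⟨ℓ - 1, by omega⟩
      simp only [Nat.add_sub_cancel]
      push_cast
      ring
    rw [h2] at h1
    exact h1
  have hev : ∀ A B : Polynomial (EE k), ∀ x, (C (ut k) * (A * B ^ (ℓ - 1))).eval x =
      ut k * (A.eval x * B.eval x ^ (ℓ - 1)) := by
    intro A B x
    rw [eval_mul, eval_mul, eval_pow, eval_C]
  have hut : ut k ∈ (iI k).range := ⟨uO k - tO k, by rw [map_sub]; rfl⟩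
  -- the value at the point `i₀`
  have hi0 : ∀ a b : EE k, ut k * (a * b ^ (ℓ - 1)) = iI k (uO k) * (U * a * (U * b) ^ (ℓ - 1)) := by
    intro a b
    have h1 : ut k = U ^ ℓ * iI k (uO k) := hU2.symm
    obtain ⟨l, rfl⟩ : ∃ l, ℓ = l + 1 := ⟨ℓ - 1, by omega⟩
    simp only [Nat.add_sub_cancel]
    rw [h1]
    ring
  have hreg : ∀ A B : Polynomial (EE k), (∀ i, i ≠ i₀ → A.eval (cE (y i)) ∈ (iI k).range) →
      U * A.eval (cE (y i₀)) ∈ (iI k).range → (∀ i, i ≠ i₀ → B.eval (cE (y i)) ∈ (iI k).range) →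
      U * B.eval (cE (y i₀)) ∈ (iI k).range →
      ∀ i, (C (ut k) * (A * B ^ (ℓ - 1))).eval (cE (y i)) ∈ (iI k).range := by
    intro A B a1 a2 b1 b2 i
    rw [hev]
    by_cases hi : i = i₀
    · subst hi
      rw [hi0]
      exact mul_mem ⟨_, rfl⟩ (mul_mem a2 (pow_mem b2 _))
    · exact mul_mem hut (mul_mem (a1 i hi) (pow_mem (b1 i hi) _))
  obtain ⟨H₁, p1, p2, p3⟩ := reg hf hn hd hy hfy (hW S S S1 S1) (hreg S S S3 S4 S3 S4)
  obtain ⟨H₂, q1, q2, q3⟩ := reg hf hn hd hy hfy (hW T T T1 T1) (hreg T T T3 T4 T3 T4)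
  obtain ⟨H₁₂, r1, r2, r3⟩ := reg hf hn hd hy hfy (hW T S T1 S1) (hreg T S T3 T4 S3 S4)
  simp only [hev] at p3 q3 r3
  refine ⟨M, H₁, H₂, H₁₂, by omega, p1, q1, ?_, ?_, ?_, q2, ?_, ?_⟩
  · rw [← map_pow, ← map_pow, ← map_mul]
    refine mk_eq_of_values f y hy hfy _ _ fun i => ?_
    rw [Polynomial.map_pow, Polynomial.map_mul, Polynomial.map_pow, eval_pow, eval_mul, eval_pow,
      p3, q3, r3]
    obtain ⟨l, rfl⟩ : ∃ l, ℓ = l + 1 := ⟨ℓ - 1, by omega⟩
    simp only [Nat.add_sub_cancel]
    ring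
  · refine red hy p1 hn0 X fun i => ?_
    rw [p3, map_mul, map_mul, map_pow, S2, const_ut]
    simp [toL]
  · refine red hy q1 hn0 (X ^ M) fun i => ?_
    rw [q3, map_mul, map_mul, map_pow, T2, const_ut]
    obtain ⟨l, rfl⟩ : ∃ l, ℓ = l + 1 := ⟨ℓ - 1, by omega⟩
    simp only [Nat.add_sub_cancel]
    have : (toL (X ^ M : k[X]) : LaurentSeries k) =
        algebraMap (PowerSeries k) (LaurentSeries k) PowerSeries.X ^ M := by
      rw [map_pow]
      unfold toL
      simp
    rw [this, hM]
    simp only [Polynomial.coe_pow, Polynomial.coe_X, map_pow]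
    ring
  · -- the point over `u = 0`
    obtain ⟨e, e1, e2⟩ := exists_ev0 k
    have he : e (uO k) = 0 := by
      unfold uO
      rw [e1, PowerSeries.constantCoeff_X, map_zero]
    have key : ∀ (H : (PowerSeries k)[X][X]) (a b : EE k), U * a ∈ (iI k).range →
        U * b ∈ (iI k).range →
        (H.map (jE k)).eval (cE (y i₀)) = ut k * (a * b ^ (ℓ - 1)) →
        evalEval 0 (PowerSeries.C (PowerSeries.constantCoeff (y i₀))) H = 0 := by
      rintro H a b ⟨a', ha'⟩ ⟨b', hb'⟩ h
      have h1 : (H.map (jE k)).eval (cE (y i₀)) =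
          iI k ((H.map (jO k)).eval (PowerSeries.C (y i₀))) := by
        unfold jE cE
        rw [← Polynomial.map_map, Polynomial.eval_map, eval₂_at_apply]
      rw [h1, hi0, ← ha', ← hb', ← map_pow, ← map_mul, ← map_mul] at h
      rw [← e2, iI_injective h, map_mul, he, zero_mul]
    exact ⟨key H₁ _ _ S4 S4 (p3 i₀), key H₂ _ _ T4 T4 (q3 i₀)⟩
  · intro i hi
    obtain ⟨e, e1, e2, e3, e4⟩ := exists_evt k
    have key : ∀ (H : (PowerSeries k)[X][X]) (a b : EE k), a ∈ (iI k).range →
        b ∈ (iI k).range →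
        (H.map (jE k)).eval (cE (y i)) = ut k * (a * b ^ (ℓ - 1)) →
        evalEval PowerSeries.X (y i) H = 0 := by
      rintro H a b ⟨a', ha'⟩ ⟨b', hb'⟩ h
      have h1 : (H.map (jE k)).eval (cE (y i)) =
          iI k ((H.map (jO k)).eval (PowerSeries.C (y i))) := by
        unfold jE cE
        rw [← Polynomial.map_map, Polynomial.eval_map, eval₂_at_apply]
      have h2 : ut k = iI k (uO k - tO k) := by rw [map_sub]; rfl
      rw [h1, h2, ← ha', ← hb', ← map_pow, ← map_mul, ← map_mul] at h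
      rw [← e4, iI_injective h, map_mul, map_sub, e1, e2, sub_self, zero_mul]
    exact ⟨key H₁ _ _ (S3 i hi) (S3 i hi) (p3 i), key H₂ _ _ (T3 i hi) (T3 i hi) (q3 i)⟩

end Pool.Agent.Helper54.SR
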